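import Mathlib
import Pool.Agent.Lib.MP_8f946f_al.Defs
import Pool.Agent.Lib.MP_8f946f_al.Main
import Pool.Agent.Lib.MP_8f946f_al.Sol.Asm

/-!
# Locally residually finite varieties of Lie algebras over a finite field

Let `F` be a finite field. Every locally residually finite variety of Lie algebras over `F`
satisfies a monic identity, i.e. an identity of the form
`[(ad x)^k f, g] = ∑_{j<k} c_j(ad x) [(ad x)^j f, g] + w`,
with `c_j ∈ F[X]` and `w` in the ideal `[A + B, [A, B]]` of the free Lie algebra, `A` and `B` being
the ideals generated by `f` and by `g`.

Conversely, let `V` be a variety whose finitely generated algebras are soluble-by-finite, for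
example a variety of soluble algebras, or a subvariety of a product of a variety of soluble algebras
and a locally finite variety. If `V` satisfies a monic identity, then its finitely generated algebras
are nilpotent-by-finite and residually finite. So, among these varieties, the locally residually
finite ones are exactly those with a monic identity.
-/

namespace Pool.Agent.Lib.MP_8f946f_al.Old.SolubleByFinite

open Pool.Agent.Lib.MP_8f946f_al Pool.Agent.Lib.MP_8f946f_al.Sol

theorem result {F : Type} [Field F] [Finite F] (Γ : Set (FreeLieAlgebra F ℕ)) :
    (LocallyRF Γ → HasMonicIdentity Γ) ∧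
    (LocallySolubleByFinite Γ → (LocallyRF Γ ↔ HasMonicIdentity Γ)) ∧
    (LocallySolubleByFinite Γ → HasMonicIdentity Γ → LocallyNilpotentByFinite Γ) ∧
    (LocallyNilpotentByFinite Γ → LocallySolubleByFinite Γ) :=
  ⟨fun h => hasMonicIdentity_of_locallyRF h,
    fun hS => ⟨fun h => hasMonicIdentity_of_locallyRF h,
      fun h => locallyRF_of_hasMonicIdentity (specFinal' F Γ hS h) h⟩,
    fun hS h => specFinal' F Γ hS h, fun h => LocallySolubleByFinite.of_nilpotent h⟩

end Pool.Agent.Lib.MP_8f946f_al.Old.SolubleByFinite
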